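import Pool.Agent.Helper22_ATB.IN2

set_option autoImplicit false

/-!
# Squad ATB, row IN1: independence (I1)
-/

namespace Pool.Agent.ATB.H75

open scoped TensorProduct
open Pool.Agent.ATB.H22

section aux
variable {K : Type} [Field K] {n : ℕ}

theorem ctr_tmul (P : Module.Dual K (Fin n → K)) (s : MvPolynomial (Fin n) K)
    (ω : ExteriorAlgebra K (Fin n → K)) : ctr P (s ⊗ₜ[K] ω) =
      s ⊗ₜ[K] (CliffordAlgebra.contractLeft (Q := (0 : QuadraticForm K (Fin n → K))) P ω) := by
  unfold ctr
  rw [TensorProduct.map_tmul, LinearMap.id_apply]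

theorem exists_functional (H : Submodule K (Fin n → K)) (c : Fin n → K) (hc : c ∉ H) :
    ∃ P : Module.Dual K (Fin n → K), P c = 1 ∧ ∀ u ∈ H, P u = 0 := by
  obtain ⟨f, hf, hH⟩ := Submodule.exists_le_ker_of_notMem hc
  refine ⟨(f c)⁻¹ • f, ?_, ?_⟩
  · rw [LinearMap.smul_apply, smul_eq_mul, inv_mul_cancel₀ hf]
  · intro u hu
    rw [LinearMap.smul_apply, LinearMap.mem_ker.1 (hH hu), smul_zero]

theorem ins_zero_card {B : Multiset (Fin n → K)} {H : Submodule K (Fin n → K)}
    (h : (out B H).card = 1) : ∃ b, out B H = {b} := Multiset.card_eq_one.1 h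

theorem card_ins_out (B : Multiset (Fin n → K)) (H : Submodule K (Fin n → K)) :
    (ins B H).card + (out B H).card = B.card := by
  have h1 := congrArg Multiset.card (ins_add_out B H)
  rwa [Multiset.card_add] at h1

theorem finrank_sup_span {H : Submodule K (Fin n → K)} {a : Fin n → K} :
    Module.finrank K (H ⊔ Submodule.span K {a} : Submodule K (Fin n → K)) ≤
      Module.finrank K H + 1 := by
  refine (Submodule.finrank_add_le_finrank_add_finrank _ _).trans ?_
  by_cases ha : a = 0
  · subst ha
    rw [Submodule.span_singleton_eq_bot.2 rfl, finrank_bot]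
    omega
  · rw [finrank_span_singleton ha]

end aux

theorem in1 (lea : LEAStmt) (ctrs : CTRStmt) (lpw : LPWStmt) : IN1Stmt := by
  classical
  intro K _ n k Z c i r f hf hsum H₀
  obtain ⟨H0, hc, hr⟩ := H₀
  obtain ⟨lea1, lea4, lea5, lea6, lea7, lea8, lea9, lea10⟩ := lea K n
  obtain ⟨π, hπ1, hπ2, hπc⟩ := lea6 H0 c hc
  obtain ⟨π', hπ'1, hπ'c, hπ'0⟩ := lea7 H0 c hc
  obtain ⟨P, hPc, hPH⟩ := exists_functional H0 c hc
  obtain ⟨ctr1, ctr2, ctr3, ctr4⟩ := ctrs K n P
  obtain ⟨lpw1, -, -, -⟩ := lpw K n
  obtain ⟨l1, l2, l3⟩ := lea1 H0 π hπ1 hπ2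
  have hπ'2 : ∀ v ∈ Submodule.span K {c}, π' v = v := by
    intro v hv
    obtain ⟨a, rfl⟩ := Submodule.mem_span_singleton.1 hv
    rw [map_smul, hπ'c]
  obtain ⟨m1, m2, m3⟩ := lea1 (Submodule.span K {c}) π' hπ'1 hπ'2
  have hfH := hf ⟨H0, hc, hr⟩
  by_cases hN : 0 ≤ ((ins Z H0).card : ℤ) - (k + 1 + i)
  swap
  · -- no generators
    have : Cc (k + 1) Z H0 i ≤ ⊥ := by
      unfold Cc OmH
      rw [Submodule.span_le]
      rintro x ⟨B, D, ω, hω, hBD, hsp, hcard, rfl⟩
      exfalso
      apply hN
      have h := congrArg Multiset.card hBD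
      rw [Multiset.card_add] at h
      omega
    have h2 := this hfH
    simpa using h2
  obtain ⟨u, hu⟩ := Int.eq_ofNat_of_zero_le hN
  -- killing lemma
  have kill : ∀ (B D : Multiset (Fin n → K)), B + D = Z →
      ((ins B H0).card : ℤ) ≤ k + i → ldp π u (prodm D) = 0 := by
    intro B D hBD hB
    apply l1
    have h := congrArg (fun Y => (ins Y H0).card) hBD
    simp only [ins_add, Multiset.card_add] at h
    have h3 : (((ins B H0).card + (ins D H0).card : ℕ) : ℤ) = ((ins Z H0).card : ℤ) := by rw [h]
    push_cast at h3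
    omega
  -- the second lead map
  obtain ⟨Z2, hZ2⟩ : ∃ Z2 : Multiset (Fin n → K), Z2 = (out Z H0).map (fun v => v - π v) := ⟨_, rfl⟩
  obtain ⟨μ, hμ⟩ : ∃ μ : ℕ, μ = (ins Z2 (Submodule.span K {c})).card := ⟨_, rfl⟩
  obtain ⟨Φ, hΦdef⟩ : ∃ Φ : AA K n →ₗ[K] AA K n, Φ = ld π' μ ∘ₗ (ld π u ∘ₗ ctr P) := ⟨_, rfl⟩
  have hΦapp : ∀ x, Φ x = ld π' μ (ld π u (ctr P x)) := by
    intro x
    rw [hΦdef]
    rfl
  have hΦ : ∀ (s : MvPolynomial (Fin n) K) (ω : ExteriorAlgebra K (Fin n → K)),
      Φ (s ⊗ₜ[K] ω) = ldp π' μ (ldp π u s) ⊗ₜ[K]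
        (CliffordAlgebra.contractLeft (Q := (0 : QuadraticForm K (Fin n → K))) P ω) := by
    intro s ω
    rw [hΦapp, ctr_tmul, lea9, lea9]
  have hΦw : ∀ (s : MvPolynomial (Fin n) K) (ω : ExteriorAlgebra K (Fin n → K)),
      Φ (wl c (s ⊗ₜ[K] ω)) = ldp π' μ (ldp π u s) ⊗ₜ[K] ω - wl c (Φ (s ⊗ₜ[K] ω)) := by
    intro s ω
    rw [hΦapp, hΦapp, ctr1, hPc, one_smul, map_sub, map_sub, lea8, lea8, lea9, lea9]
  have hΦkill : ∀ (s : MvPolynomial (Fin n) K) (ω : ExteriorAlgebra K (Fin n → K)),
      ldp π u s = 0 → Φ (s ⊗ₜ[K] ω) = 0 := by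
    intro s ω h
    rw [hΦ, h, map_zero, TensorProduct.zero_tmul]
  have hΦwkill : ∀ (s : MvPolynomial (Fin n) K) (ω : ExteriorAlgebra K (Fin n → K)),
      ldp π u s = 0 → Φ (wl c (s ⊗ₜ[K] ω)) = 0 := by
    intro s ω h
    rw [hΦw, hΦkill s ω h, h, map_zero, TensorProduct.zero_tmul, map_zero, sub_zero]
  have hΦH0 : ∀ (s : MvPolynomial (Fin n) K) (j : ℤ) (ω : ExteriorAlgebra K (Fin n → K)),
      ω ∈ Lpow H0 j → Φ (s ⊗ₜ[K] ω) = 0 := by
    intro s j ω h
    rw [hΦapp, ctr4 H0 j ω s hPH h, map_zero, map_zero]
  -- the right side is killed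
  have hker : Qm k Z c (r + 1) (i + 1) ≤ LinearMap.ker Φ := by
    unfold Qm
    refine sup_le ?_ ?_
    · unfold Om
      rw [Submodule.span_le]
      rintro x ⟨B, D, ω, hω, hBD, hcard, rfl⟩
      rw [SetLike.mem_coe, LinearMap.mem_ker]
      by_cases hle : sp B ≤ H0
      · exact hΦH0 _ _ _ (lpw1 _ _ _ hle hω)
      · apply hΦkill
        apply kill B D hBD
        have := ins_card_lt B H0 hle
        omega
    · refine iSup_le fun H => iSup_le fun hH => sup_le ?_ ?_
      · rw [Submodule.map_le_iff_le_comap]
        unfold OmH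
        rw [Submodule.span_le]
        rintro x ⟨B, D, ω, hω, hBD, hsp, hcard, rfl⟩
        rw [SetLike.mem_coe, Submodule.mem_comap, LinearMap.mem_ker, pm_tmul]
        have hnle : ¬ sp B ≤ H0 := by
          intro hle
          rw [hsp] at hle
          have := Submodule.finrank_mono hle
          omega
        have h5 : prodm ({c} : Multiset (Fin n → K)) = lin c := by simp [prodm]
        have h4 : ∀ t, ldp π u (lin c * t) = lin c * ldp π u t := by
          intro t
          have h4 := lea4 π {c} u t (by
            intro z hz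
            rw [Multiset.mem_singleton] at hz
            rw [hz, hπc])
          rwa [h5] at h4
        by_cases hB : ((ins B H0).card : ℤ) ≤ k + i
        · apply hΦkill
          rw [h4, kill B D hBD hB, mul_zero]
        · have h6 := ins_card_lt B H0 hnle
          have h7 := card_ins_out B H0
          have h8 : (out B H0).card = 1 := by omega
          obtain ⟨b, hb⟩ := Multiset.card_eq_one.1 h8
          have hDu : (ins D H0).card = u := by
            have h := congrArg (fun Y => (ins Y H0).card) hBD
            simp only [ins_add, Multiset.card_add] at h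
            have h3 : (((ins B H0).card + (ins D H0).card : ℕ) : ℤ) = ((ins Z H0).card : ℤ) := by rw [h]
            push_cast at h3
            omega
          have h9 := l2 D
          rw [hDu] at h9
          rw [hΦ, h4, h9, ← mul_assoc]
          have h10 : lin c * prodm (ins D H0) * prodm ((out D H0).map (fun v => v - π v)) =
              prodm (c ::ₘ (ins D H0 + (out D H0).map (fun v => v - π v))) := by
            rw [prodm_cons, prodm_add, mul_assoc]
          rw [h10, m1, TensorProduct.zero_tmul]
          -- the number of the members in `K c`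
          have hbq : b - π b ∉ Submodule.span K {c} := by
            intro hbc
            have hb1 : b ∈ H0 ⊔ Submodule.span K {c} := by
              have : b = π b + (b - π b) := by abel
              rw [this]
              exact Submodule.add_mem_sup (hπ1 b) hbc
            have hspB : sp B ≤ H0 ⊔ Submodule.span K {c} := by
              rw [sp_le]
              intro z hz
              by_cases hz0 : z ∈ H0
              · exact (le_sup_left : H0 ≤ H0 ⊔ Submodule.span K {c}) hz0
              · have : z ∈ out B H0 := mem_out.2 ⟨hz, hz0⟩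
                rw [hb, Multiset.mem_singleton] at this
                rw [this]
                exact hb1
            rw [hsp] at hspB
            have h11 := finrank_sup_span (H := H0) (a := c)
            have h12 : H = H0 ⊔ Submodule.span K {c} := by
              refine Submodule.eq_of_le_of_finrank_le hspB ?_
              omega
            apply hH.1
            rw [h12]
            exact (le_sup_right : Submodule.span K {c} ≤ H0 ⊔ Submodule.span K {c})
              (Submodule.mem_span_singleton_self c)
          have hcard1 : μ = (ins ((out D H0).map (fun v => v - π v)) (Submodule.span K {c})).card := by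
            rw [hμ, hZ2, ← hBD, out_add, hb, Multiset.map_add, Multiset.map_singleton, ins_add]
            have h13 : ins ({b - π b} : Multiset (Fin n → K)) (Submodule.span K {c}) = 0 := by
              rw [Multiset.eq_zero_iff_forall_notMem]
              intro z hz
              rw [mem_ins, Multiset.mem_singleton] at hz
              exact hbq (hz.1 ▸ hz.2)
            rw [h13, zero_add]
          have h14 : c ::ₘ (ins D H0 + (out D H0).map (fun v => v - π v)) =
              {c} + ins D H0 + (out D H0).map (fun v => v - π v) := by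
            rw [add_assoc, Multiset.singleton_add]
          have h15 : ins ({c} : Multiset (Fin n → K)) (Submodule.span K {c}) = {c} := by
            refine ins_eq_self ?_
            intro z hz
            rw [Multiset.mem_singleton] at hz
            rw [hz]
            exact Submodule.mem_span_singleton_self c
          rw [h14, ins_add, ins_add, h15, Multiset.card_add, Multiset.card_add,
            Multiset.card_singleton, ← hcard1]
          omega
      · rw [Submodule.map_le_iff_le_comap]
        unfold OmH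
        rw [Submodule.span_le]
        rintro x ⟨B, D, ω, hω, hBD, hsp, hcard, rfl⟩
        rw [SetLike.mem_coe, Submodule.mem_comap, LinearMap.mem_ker]
        apply hΦwkill
        apply kill B D hBD
        have := ins_card_lt B H0 (by
          intro hle
          rw [hsp] at hle
          have := Submodule.finrank_mono hle
          omega)
        omega
  have h0 := hker hsum
  rw [LinearMap.mem_ker, Finsupp.sum, map_sum] at h0
  -- the terms `H ≠ H0` vanish
  have hother : ∀ H : {H : Submodule K (Fin n → K) // c ∉ H ∧ Module.finrank K H = r}, H ≠ ⟨H0, hc, hr⟩ →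
      Φ (wl c (pm (prodm (out Z H.1)) (f H))) = 0 := by
    intro H hne
    have hle : Cc (k + 1) Z H.1 i ≤
        (LinearMap.ker Φ).comap (wl c ∘ₗ pm (prodm (out Z H.1))) := by
      unfold Cc OmH
      rw [Submodule.span_le]
      rintro x ⟨B, D, ω, hω, hBD, hsp, hcard, rfl⟩
      rw [SetLike.mem_coe, Submodule.mem_comap, LinearMap.mem_ker, LinearMap.comp_apply]
      have h1 : pm (prodm (out Z H.1)) (prodm D ⊗ₜ[K] ω) = prodm (D + out Z H.1) ⊗ₜ[K] ω := by
        rw [pm_tmul, prodm_add, mul_comm]
      rw [h1]
      apply hΦwkill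
      apply kill B (D + out Z H.1) (by rw [← add_assoc, hBD, ins_add_out])
      have h1 := ins_card_lt B H0 (by
        intro hle
        rw [hsp] at hle
        apply hne
        apply Subtype.ext
        exact Submodule.eq_of_le_of_finrank_eq hle (by rw [H.2.2, hr]))
      omega
    exact hle (hf H)
  -- the term `H = H0`
  have hmain : Φ (wl c (pm (prodm (out Z H0)) (f ⟨H0, hc, hr⟩))) =
      pm (ldp π' μ (prodm Z2)) (f ⟨H0, hc, hr⟩) := by
    have hle : Cc (k + 1) Z H0 i ≤
        LinearMap.ker (Φ ∘ₗ (wl c ∘ₗ pm (prodm (out Z H0))) - pm (ldp π' μ (prodm Z2))) := by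
      unfold Cc OmH
      rw [Submodule.span_le]
      rintro x ⟨B, D, ω, hω, hBD, hsp, hcard, rfl⟩
      rw [SetLike.mem_coe, LinearMap.mem_ker, LinearMap.sub_apply, LinearMap.comp_apply,
        LinearMap.comp_apply, sub_eq_zero]
      have h1 : pm (prodm (out Z H0)) (prodm D ⊗ₜ[K] ω) = prodm (D + out Z H0) ⊗ₜ[K] ω := by
        rw [pm_tmul, prodm_add, mul_comm]
      have hDH : ∀ z ∈ D, z ∈ H0 := by
        intro z hz
        have : z ∈ ins Z H0 := by rw [← hBD]; exact Multiset.mem_add.2 (Or.inr hz)
        exact (mem_ins.1 this).2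
      have hinsD : ins (D + out Z H0) H0 = D := by
        rw [ins_add, ins_eq_self hDH, ins_out, add_zero]
      have houtD : out (D + out Z H0) H0 = out Z H0 := by
        rw [out_add, out_ins D H0 hDH, zero_add, out_eq_self]
        intro z hz
        exact (mem_out.1 hz).2
      have hDu : (ins (D + out Z H0) H0).card = u := by
        rw [hinsD]
        have h := congrArg Multiset.card hBD
        rw [Multiset.card_add] at h
        have h3 : ((B.card + D.card : ℕ) : ℤ) = ((ins Z H0).card : ℤ) := by rw [h]
        push_cast at h3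
        omega
      have h6 := l2 (D + out Z H0)
      rw [hDu, hinsD, houtD, ← hZ2] at h6
      have h7 := lea4 π' D μ (prodm Z2) (fun z hz => hπ'0 z (hDH z hz))
      rw [h1, hΦw, hΦH0 _ _ _ hω, map_zero, sub_zero, h6, h7, pm_tmul, mul_comm]
    have h7 := hle hfH
    rw [LinearMap.mem_ker, LinearMap.sub_apply, LinearMap.comp_apply, LinearMap.comp_apply,
      sub_eq_zero] at h7
    exact h7
  -- conclusion
  by_contra hne
  have hmem : (⟨H0, hc, hr⟩ : {H : Submodule K (Fin n → K) // c ∉ H ∧ Module.finrank K H = r}) ∈ f.support := by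
    rw [Finsupp.mem_support_iff]
    exact hne
  rw [Finset.sum_eq_single_of_mem _ hmem (fun H _ hHne => hother H hHne)] at h0
  rw [hmain] at h0
  have hne2 : ldp π' μ (prodm Z2) ≠ 0 := by
    rw [hμ, m2]
    refine mul_ne_zero ?_ (m3 _)
    apply prodm_ne_zero
    intro z hz hz0
    have h1 := (mem_ins.1 hz).1
    rw [hZ2, Multiset.mem_map] at h1
    obtain ⟨v, hv, hvz⟩ := h1
    apply (mem_out.1 hv).2
    have h2 : v = π v := by
      rw [hz0] at hvz
      exact sub_eq_zero.1 hvz
    rw [h2]
    exact hπ1 v
  exact hne (pm_injective (K := K) (n := n) hne2 (by rw [h0, map_zero]))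

end Pool.Agent.ATB.H75
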